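import Mathlib

/-! Summation by parts for difference sequences in `l2`. -/

set_option autoImplicit false

namespace Pool.Agent.P.MP_f981b0_an.IS7

open Finset Filter Topology

/-- Cauchy-Schwarz for a finite sum against the full square sums. -/
theorem cs (x y : ℕ → ℝ) (X Y : ℝ) (hX : 0 ≤ X) (hY : 0 ≤ Y) (n : ℕ)
    (hx : ∑ k ∈ range n, x k ^ 2 ≤ X ^ 2) (hy : ∑ k ∈ range n, y k ^ 2 ≤ Y ^ 2) :
    ∑ k ∈ range n, x k * y k ≤ X * Y := by
  have h := Finset.sum_mul_sq_le_sq_mul_sq (range n) x y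
  have h2 : (∑ k ∈ range n, x k * y k) ^ 2 ≤ (X * Y) ^ 2 := by
    rw [mul_pow]
    exact h.trans (mul_le_mul hx hy (sum_nonneg fun _ _ => sq_nonneg _) (sq_nonneg _))
  exact (abs_le_of_sq_le_sq' h2 (mul_nonneg hX hY)).2

theorem part_le (x : ℕ → ℝ) (hx : Summable fun k => x k ^ 2) (n : ℕ) :
    ∑ k ∈ range n, x k ^ 2 ≤ ∑' k, x k ^ 2 :=
  hx.sum_le_tsum _ fun _ _ => sq_nonneg _

theorem part_le' (x : ℕ → ℝ) (hx : Summable fun k => x k ^ 2) (n : ℕ) :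
    ∑ k ∈ range n, x (k + 1) ^ 2 ≤ ∑' k, x k ^ 2 := by
  have h := part_le x hx (n + 1)
  rw [Finset.sum_range_succ'] at h
  nlinarith [sq_nonneg (x 0)]

theorem abel (a b : ℕ → ℂ) (n : ℕ) :
    ∑ k ∈ range n, (b k - b (k + 1)) * a k =
      b 0 * a 0 - b n * a n - ∑ k ∈ range n, b (k + 1) * (a k - a (k + 1)) := by
  induction n with
  | zero => simp
  | succ n ih => rw [sum_range_succ, sum_range_succ, ih]; ring

theorem sbp (a b c : ℕ → ℂ) (τ E : ℝ) (hτ : 0 ≤ τ) (hE : 0 ≤ E)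
    (ha : Summable fun k => ‖a k - a (k + 1)‖ ^ 2) (hb : Summable fun k => ‖b k - b (k + 1)‖ ^ 2)
    (hc : Summable fun k => ‖c k - c (k + 1)‖ ^ 2)
    (ha0 : Tendsto a atTop (𝓝 0)) (hb0 : Tendsto b atTop (𝓝 0))
    (s1 : Summable fun k => ‖b k - b (k + 1) - τ * a k‖ ^ 2)
    (h1 : ∑' k, ‖b k - b (k + 1) - τ * a k‖ ^ 2 ≤ E ^ 2)
    (s2 : Summable fun k => ‖c k - c (k + 1) - τ * b k‖ ^ 2)
    (h2 : ∑' k, ‖c k - c (k + 1) - τ * b k‖ ^ 2 ≤ E ^ 2) :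
    ∑' k, ‖b k - b (k + 1)‖ ^ 2 ≤
      √(∑' k, ‖a k - a (k + 1)‖ ^ 2) * √(∑' k, ‖c k - c (k + 1)‖ ^ 2) + τ * (‖a 0‖ * ‖b 0‖) +
        E * (√(∑' k, ‖a k - a (k + 1)‖ ^ 2) + √(∑' k, ‖b k - b (k + 1)‖ ^ 2)) := by
  set A := √(∑' k, ‖a k - a (k + 1)‖ ^ 2) with hA
  set B := √(∑' k, ‖b k - b (k + 1)‖ ^ 2) with hB
  set C := √(∑' k, ‖c k - c (k + 1)‖ ^ 2) with hC
  have A0 : 0 ≤ A := Real.sqrt_nonneg _
  have B0 : 0 ≤ B := Real.sqrt_nonneg _
  have C0 : 0 ≤ C := Real.sqrt_nonneg _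
  have A2 : A ^ 2 = ∑' k, ‖a k - a (k + 1)‖ ^ 2 := Real.sq_sqrt (tsum_nonneg fun _ => sq_nonneg _)
  have B2 : B ^ 2 = ∑' k, ‖b k - b (k + 1)‖ ^ 2 := Real.sq_sqrt (tsum_nonneg fun _ => sq_nonneg _)
  have C2 : C ^ 2 = ∑' k, ‖c k - c (k + 1)‖ ^ 2 := Real.sq_sqrt (tsum_nonneg fun _ => sq_nonneg _)
  have key : ∀ n, ∑ k ∈ range n, ‖b k - b (k + 1)‖ ^ 2 ≤
      A * C + τ * (‖a 0‖ * ‖b 0‖) + E * (A + B) + τ * (‖a n‖ * ‖b n‖) := by
    intro n
    have e1 : ((∑ k ∈ range n, ‖b k - b (k + 1)‖ ^ 2 : ℝ) : ℂ) =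
        ∑ k ∈ range n, (b k - b (k + 1)) * (starRingEnd ℂ) (b k - b (k + 1) - τ * a k) +
          (τ * (b 0 * (starRingEnd ℂ) (a 0)) - τ * (b n * (starRingEnd ℂ) (a n)) -
            ∑ k ∈ range n, (c (k + 1) - c (k + 1 + 1)) * (starRingEnd ℂ) (a k - a (k + 1)) +
            ∑ k ∈ range n, (c (k + 1) - c (k + 1 + 1) - τ * b (k + 1)) *
              (starRingEnd ℂ) (a k - a (k + 1))) := by
      have h3 := abel (fun k => (starRingEnd ℂ) (a k)) b n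
      have h4 : ((∑ k ∈ range n, ‖b k - b (k + 1)‖ ^ 2 : ℝ) : ℂ) =
          ∑ k ∈ range n, (b k - b (k + 1)) * (starRingEnd ℂ) (b k - b (k + 1) - τ * a k) +
            τ * ∑ k ∈ range n, (b k - b (k + 1)) * (starRingEnd ℂ) (a k) := by
        rw [mul_sum, ← sum_add_distrib, Complex.ofReal_sum]
        refine sum_congr rfl fun k _ => ?_
        rw [Complex.ofReal_pow, ← Complex.mul_conj', map_sub (starRingEnd ℂ) (b k - b (k + 1)),
          map_mul, Complex.conj_ofReal]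
        ring
      rw [h4, h3, sub_add, ← sum_sub_distrib, mul_sub, mul_sub, mul_sum]
      congr 2
      refine sum_congr rfl fun k _ => ?_
      rw [map_sub]; ring
    have n1 : ‖∑ k ∈ range n, (b k - b (k + 1)) * (starRingEnd ℂ) (b k - b (k + 1) - τ * a k)‖ ≤
        B * E := by
      refine (norm_sum_le _ _).trans ?_
      simp only [norm_mul, Complex.norm_conj]
      exact cs _ _ _ _ B0 hE n (B2 ▸ part_le _ hb n) ((part_le _ s1 n).trans h1)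
    have n2 : ‖∑ k ∈ range n, (c (k + 1) - c (k + 1 + 1)) * (starRingEnd ℂ) (a k - a (k + 1))‖ ≤
        C * A := by
      refine (norm_sum_le _ _).trans ?_
      simp only [norm_mul, Complex.norm_conj]
      exact cs _ _ _ _ C0 A0 n (C2 ▸ part_le' (fun k => ‖c k - c (k + 1)‖) hc n)
        (A2 ▸ part_le _ ha n)
    have n3 : ‖∑ k ∈ range n, (c (k + 1) - c (k + 1 + 1) - τ * b (k + 1)) *
        (starRingEnd ℂ) (a k - a (k + 1))‖ ≤ E * A := by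
      refine (norm_sum_le _ _).trans ?_
      simp only [norm_mul, Complex.norm_conj]
      exact cs _ _ _ _ hE A0 n
        ((part_le' (fun k => ‖c k - c (k + 1) - τ * b k‖) s2 n).trans h2) (A2 ▸ part_le _ ha n)
    have n4 : ∀ m, ‖(τ : ℂ) * (b m * (starRingEnd ℂ) (a m))‖ = τ * (‖a m‖ * ‖b m‖) := by
      intro m
      rw [norm_mul, norm_mul, Complex.norm_conj, Complex.norm_real, Real.norm_of_nonneg hτ]; ring
    have e2 : ∑ k ∈ range n, ‖b k - b (k + 1)‖ ^ 2 =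
        ‖((∑ k ∈ range n, ‖b k - b (k + 1)‖ ^ 2 : ℝ) : ℂ)‖ := by
      rw [Complex.norm_real, Real.norm_of_nonneg (sum_nonneg fun _ _ => sq_nonneg _)]
    rw [e2, e1]
    refine (norm_add_le _ _).trans ?_
    refine (add_le_add n1 ((norm_add_le _ _).trans (add_le_add ((norm_sub_le _ _).trans
      (add_le_add ((norm_sub_le _ _).trans (add_le_add (n4 0).le (n4 n).le)) n2)) n3))).trans ?_
    exact le_of_eq (by ring)
  have t1 : Tendsto (fun n => A * C + τ * (‖a 0‖ * ‖b 0‖) + E * (A + B) + τ * (‖a n‖ * ‖b n‖))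
      atTop (𝓝 (A * C + τ * (‖a 0‖ * ‖b 0‖) + E * (A + B) + τ * (‖(0 : ℂ)‖ * ‖(0 : ℂ)‖))) :=
    tendsto_const_nhds.add ((ha0.norm.mul hb0.norm).const_mul τ)
  have := le_of_tendsto_of_tendsto' hb.hasSum.tendsto_sum_nat t1 key
  simpa using this

end Pool.Agent.P.MP_f981b0_an.IS7
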